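import Pool.Agent.D0H41.LP.Stm
import Pool.Agent.Y405.CQ.MER

/-!
# Project LP, modules MERL and MERP: Mertens' theorems weighted by the numbers of roots
-/

set_option autoImplicit false

namespace Pool.Agent.D0H13.LP

open Finset Filter
open Pool.Agent.D0H41.LP

/-! ## Mertens' first theorem in arithmetic progressions -/

lemma step5 (n : ℕ) (hn : 3 ≤ n) (hl : 1 ≤ Real.log n) :
    1 / (((n + 1 : ℕ) : ℝ) * Real.log n ^ 5) ≤
      2 * (1 / Real.log n - 1 / Real.log ((n + 1 : ℕ) : ℝ)) := by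
  have hn0 : (3:ℝ) ≤ n := by exact_mod_cast hn
  set a := Real.log n with ha
  set b := Real.log ((n + 1 : ℕ) : ℝ) with hb
  have hab : a ≤ b := Real.log_le_log (by linarith) (by push_cast; linarith)
  have hb0 : 0 < b := by linarith
  have hdiff : 1 / ((n + 1 : ℕ) : ℝ) ≤ b - a := by
    have h1 := Real.one_sub_inv_le_log_of_pos (x := ((n + 1 : ℕ) : ℝ) / n) (by positivity)
    rw [Real.log_div (by positivity) (by positivity)] at h1
    rw [inv_div] at h1
    have h2 : 1 - (n:ℝ) / ((n + 1 : ℕ) : ℝ) = 1 / ((n + 1 : ℕ) : ℝ) := by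
      push_cast; field_simp; ring
    linarith
  have hb2 : b ≤ 2 * a := by
    have h1 : ((n + 1 : ℕ) : ℝ) ≤ (n:ℝ) ^ 2 := by push_cast; nlinarith
    have h2 : b ≤ Real.log ((n:ℝ) ^ 2) := Real.log_le_log (by positivity) h1
    rw [Real.log_pow] at h2
    push_cast at h2
    exact h2
  have ha0 : 0 < a := by linarith
  have e1 : 1 / a - 1 / b = (b - a) / (a * b) := by field_simp
  rw [e1]
  have hN : (0:ℝ) < ((n + 1 : ℕ) : ℝ) := by positivity
  calc 1 / (((n + 1 : ℕ) : ℝ) * a ^ 5) = (1 / ((n + 1 : ℕ) : ℝ)) * (1 / a ^ 5) := by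
        field_simp
    _ ≤ (b - a) * (2 / (a * b)) := by
        refine mul_le_mul hdiff ?_ (by positivity) (by linarith)
        rw [div_le_div_iff₀ (by positivity) (by positivity)]
        have h3 : a * b ≤ a * (2 * a) := mul_le_mul_of_nonneg_left hb2 ha0.le
        have h4 : a ^ 2 ≤ a ^ 5 := pow_le_pow_right₀ hl (by norm_num)
        nlinarith
    _ = 2 * ((b - a) / (a * b)) := by ring

/-- the weight -/
noncomputable def wt (n : ℕ) : ℝ := Real.log n / n

lemma wt_step (n : ℕ) (hn : 3 ≤ n) : |wt n - wt (n + 1)| ≤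
    Real.log n / (n * ((n + 1 : ℕ) : ℝ)) := by
  have hn0 : (3:ℝ) ≤ n := by exact_mod_cast hn
  have h3 : Real.exp 1 ≤ (n : ℝ) := (Real.exp_one_lt_d9.le.trans (by norm_num)).trans hn0
  have h1 : wt (n + 1) ≤ wt n := by
    unfold wt
    exact Real.log_div_self_antitoneOn (Set.mem_Ici.2 h3)
      (Set.mem_Ici.2 (h3.trans (by push_cast; linarith))) (by push_cast; linarith)
  rw [abs_of_nonneg (by linarith)]
  have h2 : Real.log n ≤ Real.log ((n + 1 : ℕ) : ℝ) :=
    Real.log_le_log (by linarith) (by push_cast; linarith)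
  have h4 : Real.log n / ((n + 1 : ℕ) : ℝ) ≤ wt (n + 1) := by
    unfold wt
    gcongr
  have h5 : wt n - Real.log n / ((n + 1 : ℕ) : ℝ) = Real.log n / (n * ((n + 1 : ℕ) : ℝ)) := by
    unfold wt
    have : (0:ℝ) < n := by linarith
    push_cast
    field_simp
    ring
  linarith

lemma abel5 (T D : ℕ → ℝ) (hT : ∀ n, T (n + 1) = T n + (D (n + 1) - D n) * wt (n + 1))
    (M : ℕ) (hM : 3 ≤ M) (hl : 1 ≤ Real.log M)
    (hD : ∀ n : ℕ, M ≤ n → |D n| ≤ n / Real.log n ^ 6) (N : ℕ) (hN : M ≤ N) :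
    |T N - T M - D N * wt N + D M * wt M| ≤ 2 * (1 / Real.log M - 1 / Real.log N) := by
  induction N, hN using Nat.le_induction with
  | base => simp
  | succ N hN ih =>
    have hN3 : 3 ≤ N := hM.trans hN
    have hNr : (3:ℝ) ≤ N := by exact_mod_cast hN3
    have hlN : 1 ≤ Real.log N := hl.trans (Real.log_le_log (by exact_mod_cast (by omega : 0 < M))
      (by exact_mod_cast hN))
    have hs := step5 N hN3 hlN
    have e : T (N + 1) - T M - D (N + 1) * wt (N + 1) + D M * wt M =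
        (T N - T M - D N * wt N + D M * wt M) + D N * (wt N - wt (N + 1)) := by
      rw [hT]
      ring
    rw [e]
    refine (abs_add_le _ _).trans ?_
    have h2 : |D N * (wt N - wt (N + 1))| ≤ 1 / (((N + 1 : ℕ) : ℝ) * Real.log N ^ 5) := by
      rw [abs_mul]
      calc |D N| * |wt N - wt (N + 1)| ≤
            (N / Real.log N ^ 6) * (Real.log N / (N * ((N + 1 : ℕ) : ℝ))) :=
            mul_le_mul (hD N hN) (wt_step N hN3) (abs_nonneg _) (by positivity)
        _ = 1 / (((N + 1 : ℕ) : ℝ) * Real.log N ^ 5) := by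
            have : (0:ℝ) < N := by linarith
            have : (0:ℝ) < Real.log N := by linarith
            field_simp
    linarith

lemma abel5' (T D : ℕ → ℝ) (hT : ∀ n, T (n + 1) = T n + (D (n + 1) - D n) * wt (n + 1))
    (M : ℕ) (hM : 3 ≤ M) (hl : 1 ≤ Real.log M)
    (hD : ∀ n : ℕ, M ≤ n → |D n| ≤ n / Real.log n ^ 6) (N : ℕ) (hN : M ≤ N) :
    |T N - T M| ≤ 4 := by
  have h := abel5 T D hT M hM hl hD N hN
  have hlN : Real.log M ≤ Real.log N := Real.log_le_log (by exact_mod_cast (by omega : 0 < M))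
      (by exact_mod_cast hN)
  have hb : ∀ n : ℕ, M ≤ n → |D n * wt n| ≤ 1 := by
    intro n hn
    have hn0 : (0:ℝ) < n := by exact_mod_cast (by omega : 0 < n)
    have hln : Real.log M ≤ Real.log n := Real.log_le_log (by exact_mod_cast (by omega : 0 < M))
      (by exact_mod_cast hn)
    have hl1 : 1 ≤ Real.log n := hl.trans hln
    have h0 : 0 < Real.log n := by linarith
    have hw : 0 ≤ wt n := div_nonneg h0.le hn0.le
    rw [abs_mul, abs_of_nonneg hw]
    calc |D n| * wt n ≤ (n / Real.log n ^ 6) * wt n := mul_le_mul_of_nonneg_right (hD n hn) hw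
      _ = 1 / Real.log n ^ 5 := by
          unfold wt
          field_simp
      _ ≤ 1 := by
          rw [div_le_one (by positivity)]
          exact one_le_pow₀ hl1
  have h1 := hb N hN
  have h2 := hb M le_rfl
  have h3 : 0 ≤ 1 / Real.log N := by
    have : 0 < Real.log N := by linarith
    positivity
  have h4 : 1 / Real.log M ≤ 1 := by
    rw [div_le_one (by linarith)]
    exact hl
  rw [abs_le] at h h1 h2 ⊢
  constructor <;> linarith [h.1, h.2, h1.1, h1.2, h2.1, h2.2]

/-- Mertens' first theorem in arithmetic progressions -/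
theorem mertens_log_ap (q : ℕ) (hq : 1 ≤ q) (a : ℕ) (ha : a < q) (hc : a.Coprime q) :
    ∃ C : ℝ, 0 ≤ C ∧ ∀ x : ℕ, 1 ≤ x →
      |∑ p ∈ (Icc 1 x).filter (fun p => p.Prime ∧ p % q = a), Real.log p / p -
        1 / (Nat.totient q : ℝ) * Real.log x| ≤ C := by
  obtain ⟨x0, hx0⟩ := Pool.Agent.H387R2.Uni.siegel
  have hlogx : Tendsto (fun x : ℕ => Real.log (x:ℝ)) atTop atTop :=
    Real.tendsto_log_atTop.comp tendsto_natCast_atTop_atTop
  obtain ⟨x1, hx1⟩ := eventually_atTop.1 (hlogx.eventually_ge_atTop (q : ℝ))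
  obtain ⟨C1, hC1⟩ := Pool.Agent.Helper601.Mertens.mertens_log
  have hC10 : 0 ≤ C1 := (abs_nonneg _).trans (hC1 1 le_rfl)
  obtain ⟨δ, hδ⟩ : ∃ δ : ℝ, δ = 1 / (Nat.totient q : ℝ) := ⟨_, rfl⟩
  obtain ⟨S, hS⟩ : ∃ S : ℕ → ℝ, S = fun x => ∑ p ∈ (Icc 1 x).filter (fun p => p.Prime ∧ p % q = a),
    wt p := ⟨_, rfl⟩
  obtain ⟨P, hP⟩ : ∃ P : ℕ → ℝ, P = fun x => ∑ p ∈ (Icc 1 x).filter Nat.Prime,
    wt p := ⟨_, rfl⟩
  obtain ⟨D, hD⟩ : ∃ D : ℕ → ℝ, D = fun x => (((Icc 1 x).filter (fun p => p.Prime ∧ p % q = a)).card : ℝ)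
    - δ * H343E.pi1 x := ⟨_, rfl⟩
  obtain ⟨T, hT⟩ : ∃ T : ℕ → ℝ, T = fun x => S x - δ * P x := ⟨_, rfl⟩
  have hcard : ∀ x : ℕ, (((Icc 1 x).filter (fun p => p.Prime ∧ p % q = a)).card : ℝ) =
      ∑ p ∈ (Icc 1 x).filter (fun p => p.Prime ∧ p % q = a), (1 : ℝ) := by
    intro x
    rw [sum_const, nsmul_eq_mul, mul_one]
  have hpi : ∀ x : ℕ, H343E.pi1 x = ∑ p ∈ (Icc 1 x).filter Nat.Prime, (1 : ℝ) := by
    intro x
    rw [sum_const, nsmul_eq_mul, mul_one]
    rfl
  have hTs : ∀ n, T (n + 1) = T n + (D (n + 1) - D n) * wt (n + 1) := by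
    intro n
    have f1 := Pool.Agent.Y669.mfilt_succ (fun p => p.Prime ∧ p % q = a) wt n
    have f2 := Pool.Agent.Y669.mfilt_succ Nat.Prime wt n
    have f3 := Pool.Agent.Y669.mfilt_succ (fun p => p.Prime ∧ p % q = a) (fun _ => (1 : ℝ)) n
    have f4 := Pool.Agent.Y669.mfilt_succ Nat.Prime (fun _ => (1 : ℝ)) n
    rw [hT, hD]
    simp only
    rw [hS, hP]
    simp only
    rw [f1, f2, hcard, hcard, hpi, hpi, f3, f4]
    by_cases h1 : (n + 1).Prime <;> by_cases h2 : (n + 1) % q = a <;>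
      simp only [h1, h2, and_self, and_true, and_false, if_true, if_false] <;> ring
  set M : ℕ := max x0 x1 + 3 with hM
  have hM3 : 3 ≤ M := by omega
  have hlog3 : 1 ≤ Real.log (3 : ℝ) := by
    rw [Real.le_log_iff_exp_le (by norm_num)]
    exact Real.exp_one_lt_d9.le.trans (by norm_num)
  have hlM : ∀ n : ℕ, 3 ≤ n → 1 ≤ Real.log n := fun n hn => hlog3.trans
    (Real.log_le_log (by norm_num) (by exact_mod_cast hn))
  have hDb : ∀ n : ℕ, M ≤ n → |D n| ≤ n / Real.log n ^ 6 := by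
    intro x hx
    have hxx0 : x0 ≤ x := (le_max_left x0 x1).trans (by omega)
    have hxx1 : x1 ≤ x := (le_max_right x0 x1).trans (by omega)
    have hqx : (q : ℝ) ≤ Real.log x ^ 2 := by
      have h1 := hx1 x hxx1
      have h2 : (1 : ℝ) ≤ q := by exact_mod_cast hq
      nlinarith
    have h3 := hx0 x hxx0 q hq hqx a ha hc
    have h4 : (((Icc 1 x).filter (fun p => p.Prime ∧ p % q = a)).card : ℝ) = H343E.piAP x q a := by
      unfold H343E.piAP
      congr 2
      ext p
      rw [mem_filter, mem_filter, Nat.ModEq, Nat.mod_eq_of_lt ha]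
    rw [hD, hδ]
    simp only
    rw [h4, one_div_mul_eq_div]
    exact h3
  have hab := abel5' T D hTs M hM3 (hlM M hM3) hDb
  obtain ⟨B, hB⟩ : ∃ B : ℝ, B = ∑ x ∈ Icc 0 M, |S x - δ * Real.log x| := ⟨_, rfl⟩
  have hB0 : 0 ≤ B := by rw [hB]; exact sum_nonneg fun _ _ => abs_nonneg _
  refine ⟨B + 4 + |T M| + |δ| * C1, by positivity, fun x hx => ?_⟩
  rw [← hδ]
  have e0 : ∑ p ∈ (Icc 1 x).filter (fun p => p.Prime ∧ p % q = a), Real.log p / p = S x := by
    rw [hS]
    rfl
  rw [e0]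
  rcases le_or_gt x M with hxM | hxM
  · have h1 : |S x - δ * Real.log x| ≤ B := by
      rw [hB]
      exact single_le_sum (f := fun x : ℕ => |S x - δ * Real.log x|)
        (fun _ _ => abs_nonneg _) (mem_Icc.2 ⟨Nat.zero_le _, hxM⟩)
    have h2 : 0 ≤ 4 + |T M| + |δ| * C1 := by positivity
    linarith
  · have h1 := hab x hxM.le
    have h2 := hC1 x hx
    have e1 : S x - δ * Real.log x = (T x - T M) + T M + δ * (P x - Real.log x) := by
      rw [hT]
      ring
    rw [e1]
    have h6 : |δ * (P x - Real.log x)| ≤ |δ| * C1 := by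
      rw [abs_mul]
      refine mul_le_mul_of_nonneg_left ?_ (abs_nonneg _)
      rw [hP]
      exact h2
    have h7 := abs_add_le ((T x - T M) + T M) (δ * (P x - Real.log x))
    have h8 := abs_add_le (T x - T M) (T M)
    linarith

/-! ## The numbers of roots -/

lemma leg3 {p : ℕ} [Fact p.Prime] (h2 : p ≠ 2) (h3 : p ≠ 3) :
    legendreSym p (-3) = if p % 3 = 1 then 1 else -1 := by
  have hp : p.Prime := Fact.out
  haveI : Fact (Nat.Prime 3) := ⟨Nat.prime_three⟩
  have hodd : p % 2 = 1 := hp.eq_two_or_odd.resolve_left h2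
  have e1 : legendreSym p (-3) = legendreSym p (-1) * legendreSym p 3 := by
    rw [← legendreSym.mul]
    norm_num
  have e2 : legendreSym p (-1) = (-1) ^ (p / 2) := by
    rw [legendreSym.at_neg_one h2, ZMod.χ₄_eq_neg_one_pow hodd]
  have e3 : legendreSym p 3 = (-1) ^ (p / 2) * legendreSym 3 p := by
    have h := legendreSym.quadratic_reciprocity' (p := 3) (q := p) (by norm_num) h2
    have h4 : 3 / 2 * (p / 2) = p / 2 := by omega
    rw [h4] at h
    exact_mod_cast h
  have e4 : legendreSym 3 (p : ℤ) = if p % 3 = 1 then 1 else -1 := by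
    rw [legendreSym.mod]
    have hm : p % 3 = 1 ∨ p % 3 = 2 := by
      have : ¬ 3 ∣ p := fun h => h3 ((Nat.prime_dvd_prime_iff_eq Nat.prime_three hp).1 h).symm
      omega
    rcases hm with hm | hm
    · have : ((p : ℤ) % ((3 : ℕ) : ℤ)) = 1 := by push_cast; omega
      rw [this, if_pos hm]
      exact legendreSym.at_one 3
    · have : ((p : ℤ) % ((3 : ℕ) : ℤ)) = 2 := by push_cast; omega
      rw [this, if_neg (by omega), legendreSym.at_two (by norm_num)]
      rfl
  rw [e1, e2, e3, e4, ← mul_assoc, ← pow_add, ← two_mul, pow_mul]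
  norm_num

lemma rt_eq {a p : ℕ} [Fact p.Prime] (h2 : p ≠ 2) :
    (rt a p : ℤ) = legendreSym p (-(a : ℤ)) + 1 := by
  have hp : p.Prime := Fact.out
  haveI : NeZero p := ⟨hp.ne_zero⟩
  rw [← legendreSym.card_sqrts p h2]
  norm_cast
  unfold rt
  refine Finset.card_bij (fun r _ => (r : ZMod p)) ?_ ?_ ?_
  · intro r hr
    rw [mem_filter, mem_range] at hr
    rw [Set.mem_toFinset, Set.mem_setOf_eq]
    have h := (ZMod.natCast_eq_zero_iff (r ^ 2 + a) p).2 hr.2
    push_cast at h ⊢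
    linear_combination h
  · intro r hr s hs hrs
    rw [mem_filter, mem_range] at hr hs
    rw [ZMod.natCast_eq_natCast_iff'] at hrs
    rwa [Nat.mod_eq_of_lt hr.1, Nat.mod_eq_of_lt hs.1] at hrs
  · intro x hx
    rw [Set.mem_toFinset, Set.mem_setOf_eq] at hx
    refine ⟨x.val, ?_, ZMod.natCast_zmod_val x⟩
    rw [mem_filter, mem_range]
    refine ⟨ZMod.val_lt x, ?_⟩
    rw [← ZMod.natCast_eq_zero_iff]
    push_cast at hx ⊢
    rw [ZMod.natCast_zmod_val]
    linear_combination hx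

/-- the modulus and the class of the primes with two roots -/
lemma rt_val {a p : ℕ} (ha : a = 1 ∨ a = 3) (hp : p.Prime) (h5 : 5 ≤ p) :
    (rt a p : ℝ) = if p % (if a = 1 then 4 else 3) = 1 then 2 else 0 := by
  haveI : Fact p.Prime := ⟨hp⟩
  have h2 : p ≠ 2 := by omega
  have h := rt_eq (a := a) (p := p) h2
  have hodd : p % 2 = 1 := hp.eq_two_or_odd.resolve_left h2
  have key : rt a p = if p % (if a = 1 then 4 else 3) = 1 then 2 else 0 := by
    rcases ha with rfl | rfl
    · rw [show (-((1 : ℕ) : ℤ)) = -1 by norm_num, legendreSym.at_neg_one h2] at h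
      rw [ZMod.χ₄_nat_eq_if_mod_four] at h
      rw [if_pos rfl]
      rw [if_neg (by omega)] at h
      split_ifs at h ⊢ <;> omega
    · rw [show (-((3 : ℕ) : ℤ)) = -3 by norm_num, leg3 h2 (by omega)] at h
      have e : (if (3 : ℕ) = 1 then 4 else 3) = 3 := rfl
      rw [e]
      split_ifs at h ⊢ <;> omega
  rw [key]
  split_ifs <;> norm_num

lemma rt_le (a p : ℕ) : rt a p ≤ p := by
  unfold rt
  refine (card_filter_le _ _).trans ?_
  rw [card_range]

/-- sums over the primes weighted by the number of roots -/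
lemma sum_rt {a : ℕ} (ha : a = 1 ∨ a = 3) (f : ℕ → ℝ) (hf : ∀ n, 0 ≤ f n) (y : ℕ) :
    |∑ p ∈ P y, (rt a p : ℝ) * f p - 2 * ∑ p ∈ (Icc 1 y).filter (fun p => p.Prime ∧
      p % (if a = 1 then 4 else 3) = 1), f p| ≤ 4 * (f 2 + f 3) := by
  have h1 : 2 * ∑ p ∈ (Icc 1 y).filter (fun p => p.Prime ∧
      p % (if a = 1 then 4 else 3) = 1), f p = ∑ p ∈ P y,
      (if p % (if a = 1 then 4 else 3) = 1 then 2 else 0) * f p := by
    unfold P
    rw [mul_sum, sum_filter, sum_filter]
    refine sum_congr rfl fun p _ => ?_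
    by_cases g1 : p.Prime <;> by_cases g2 : p % (if a = 1 then 4 else 3) = 1
    · rw [if_pos ⟨g1, g2⟩, if_pos g1, if_pos g2]
    · rw [if_neg (fun h => g2 h.2), if_pos g1, if_neg g2, zero_mul]
    · rw [if_neg (fun h => g1 h.1), if_neg g1]
    · rw [if_neg (fun h => g1 h.1), if_neg g1]
  rw [h1, ← sum_sub_distrib]
  have h2 : ∀ p ∈ P y, |(rt a p : ℝ) * f p -
      (if p % (if a = 1 then 4 else 3) = 1 then 2 else 0) * f p| ≤
      (if p = 2 then 4 * f 2 else 0) + (if p = 3 then 4 * f 3 else 0) := by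
    intro p hp
    unfold P at hp
    rw [mem_filter] at hp
    by_cases h5 : 5 ≤ p
    · rw [rt_val ha hp.2 h5, sub_self, abs_zero, if_neg (by omega), if_neg (by omega)]
      norm_num
    · have h23 : p = 2 ∨ p = 3 := by
        have := hp.2.two_le
        have h4 : p ≠ 4 := by
          rintro rfl
          exact absurd hp.2 (by decide)
        omega
      have hle : (rt a p : ℝ) ≤ p := by exact_mod_cast rt_le a p
      have h0 : (0 : ℝ) ≤ rt a p := Nat.cast_nonneg _
      rcases h23 with rfl | rfl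
      · have e1 : (if (2 : ℕ) = 2 then 4 * f 2 else 0) = 4 * f 2 := if_pos rfl
        have e2 : (if (2 : ℕ) = 3 then 4 * f 3 else 0) = 0 := if_neg (by norm_num)
        rw [e1, e2, add_zero, ← sub_mul, abs_mul, abs_of_nonneg (hf 2)]
        refine mul_le_mul_of_nonneg_right ?_ (hf 2)
        push_cast at hle
        rw [abs_le]
        split_ifs <;> constructor <;> linarith
      · have e1 : (if (3 : ℕ) = 2 then 4 * f 2 else 0) = 0 := if_neg (by norm_num)
        have e2 : (if (3 : ℕ) = 3 then 4 * f 3 else 0) = 4 * f 3 := if_pos rfl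
        rw [e1, e2, zero_add, ← sub_mul, abs_mul, abs_of_nonneg (hf 3)]
        refine mul_le_mul_of_nonneg_right ?_ (hf 3)
        push_cast at hle
        rw [abs_le]
        split_ifs <;> constructor <;> linarith
  refine (abs_sum_le_sum_abs _ _).trans ((sum_le_sum h2).trans ?_)
  rw [sum_add_distrib, sum_ite_eq', sum_ite_eq']
  have h3 := hf 2
  have h4 := hf 3
  split_ifs <;> linarith

/-- **MERL** -/
theorem t_MERL : S_MERL := by
  have h : ∀ a : ℕ, (a = 1 ∨ a = 3) → ∃ C : ℝ, 0 ≤ C ∧ ∀ y : ℕ, 2 ≤ y →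
      |∑ p ∈ P y, (rt a p : ℝ) * Real.log p / p - Real.log y| ≤ C := by
    intro a ha
    obtain ⟨C, hC0, hC⟩ := mertens_log_ap (if a = 1 then 4 else 3) (by split_ifs <;> norm_num) 1
      (by split_ifs <;> norm_num) (Nat.coprime_one_left _)
    have htot : (Nat.totient (if a = 1 then 4 else 3) : ℝ) = 2 := by
      split_ifs
      · have : Nat.totient 4 = 2 := by decide
        rw [this]; norm_num
      · have : Nat.totient 3 = 2 := by decide
        rw [this]; norm_num
    refine ⟨2 * C + 4 * (wt 2 + wt 3), ?_, fun y hy => ?_⟩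
    · have h1 : 0 ≤ wt 2 := div_nonneg (Real.log_natCast_nonneg _) (Nat.cast_nonneg _)
      have h2 : 0 ≤ wt 3 := div_nonneg (Real.log_natCast_nonneg _) (Nat.cast_nonneg _)
      positivity
    · have h1 := hC y (by omega)
      rw [htot] at h1
      have h2 := sum_rt ha wt (fun n => div_nonneg (Real.log_natCast_nonneg _) (Nat.cast_nonneg _)) y
      have e : ∑ p ∈ P y, (rt a p : ℝ) * Real.log p / p = ∑ p ∈ P y, (rt a p : ℝ) * wt p :=
        sum_congr rfl fun p _ => by
          unfold wt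
          ring
      rw [e]
      have e2 : ∑ p ∈ (Icc 1 y).filter (fun p => p.Prime ∧ p % (if a = 1 then 4 else 3) = 1),
          Real.log p / p = ∑ p ∈ (Icc 1 y).filter (fun p => p.Prime ∧
            p % (if a = 1 then 4 else 3) = 1), wt p := rfl
      rw [e2] at h1
      rw [abs_le] at h1 h2 ⊢
      constructor <;> linarith [h1.1, h1.2, h2.1, h2.2]
  obtain ⟨C1, h10, h1⟩ := h 1 (Or.inl rfl)
  obtain ⟨C3, h30, h3⟩ := h 3 (Or.inr rfl)
  refine ⟨C1 + C3 + 1, by positivity, ?_⟩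
  rintro a (rfl | rfl) y hy
  · exact (h1 y hy).trans (by linarith)
  · exact (h3 y hy).trans (by linarith)

/-- Mertens' second theorem weighted by the numbers of roots -/
theorem mer2 : ∃ C : ℝ, 0 ≤ C ∧ ∀ a : ℕ, (a = 1 ∨ a = 3) → ∀ y : ℕ, 3 ≤ y →
    |∑ p ∈ P y, (rt a p : ℝ) / p - Real.log (Real.log y)| ≤ C := by
  have h : ∀ a : ℕ, (a = 1 ∨ a = 3) → ∃ C : ℝ, 0 ≤ C ∧ ∀ y : ℕ, 3 ≤ y →
      |∑ p ∈ P y, (rt a p : ℝ) / p - Real.log (Real.log y)| ≤ C := by
    intro a ha
    obtain ⟨C, hC0, hC⟩ := Pool.Agent.Y405.CQ.mertens_ap (if a = 1 then 4 else 3)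
      (by split_ifs <;> norm_num) 1 (by split_ifs <;> norm_num) (Nat.coprime_one_left _)
    have htot : (Nat.totient (if a = 1 then 4 else 3) : ℝ) = 2 := by
      split_ifs
      · have : Nat.totient 4 = 2 := by decide
        rw [this]; norm_num
      · have : Nat.totient 3 = 2 := by decide
        rw [this]; norm_num
    refine ⟨2 * C + 4 * (1 / ((2 : ℕ) : ℝ) + 1 / ((3 : ℕ) : ℝ)), by positivity, fun y hy => ?_⟩
    have h1 := hC y hy
    rw [htot] at h1
    have h2 := sum_rt ha (fun n : ℕ => 1 / (n : ℝ)) (fun n => by positivity) y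
    have e : ∑ p ∈ P y, (rt a p : ℝ) / p = ∑ p ∈ P y, (rt a p : ℝ) * (1 / (p : ℝ)) :=
      sum_congr rfl fun p _ => by ring
    rw [e]
    rw [abs_le] at h1 h2 ⊢
    constructor <;> linarith [h1.1, h1.2, h2.1, h2.2]
  obtain ⟨C1, h10, h1⟩ := h 1 (Or.inl rfl)
  obtain ⟨C3, h30, h3⟩ := h 3 (Or.inr rfl)
  refine ⟨C1 + C3, by positivity, ?_⟩
  rintro a (rfl | rfl) y hy
  · exact (h1 y hy).trans (by linarith)
  · exact (h3 y hy).trans (by linarith)

lemma log3 : 1 ≤ Real.log 3 := by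
  rw [Real.le_log_iff_exp_le (by norm_num)]
  exact Real.exp_one_lt_d9.le.trans (by norm_num)

lemma one_le_log {n : ℕ} (hn : 3 ≤ n) : 1 ≤ Real.log n :=
  log3.trans (Real.log_le_log (by norm_num) (by exact_mod_cast hn))

lemma P_prime {z p : ℕ} (h : p ∈ P z) : p.Prime := (mem_filter.1 h).2

lemma fac_bd {a p : ℕ} (hp : p.Prime) : 0 ≤ 1 - (rt a p : ℝ) / p ∧ 1 - (rt a p : ℝ) / p ≤ 1 := by
  have h0 : (0 : ℝ) < p := by exact_mod_cast hp.pos
  have h1 : (rt a p : ℝ) / p ≤ 1 := by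
    rw [div_le_one h0]
    exact_mod_cast rt_le a p
  have h2 : 0 ≤ (rt a p : ℝ) / p := by positivity
  constructor <;> linarith

lemma prod_up {a : ℕ} {C : ℝ} (hC : ∀ y : ℕ, 3 ≤ y →
    |∑ p ∈ P y, (rt a p : ℝ) / p - Real.log (Real.log y)| ≤ C) {u v : ℕ} (hu : 3 ≤ u)
    (huv : u ≤ v) : ∏ p ∈ (P v).filter (fun p => u < p), (1 - (rt a p : ℝ) / p) ≤
      Real.exp (2 * C) * (Real.log u / Real.log v) := by
  have h1 : ∏ p ∈ (P v).filter (fun p => u < p), (1 - (rt a p : ℝ) / p) ≤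
      ∏ p ∈ (P v).filter (fun p => u < p), Real.exp (-((rt a p : ℝ) / p)) := by
    refine prod_le_prod (fun p hp => (fac_bd (P_prime (mem_filter.1 hp).1)).1) fun p _ => ?_
    have := Real.add_one_le_exp (-((rt a p : ℝ) / p))
    linarith
  rw [← Real.exp_sum, sum_neg_distrib] at h1
  have h2 : ∑ p ∈ P v, (rt a p : ℝ) / p = ∑ p ∈ P u, (rt a p : ℝ) / p +
      ∑ p ∈ (P v).filter (fun p => u < p), (rt a p : ℝ) / p := by
    have e : P u = (P v).filter (fun p => ¬ u < p) := by
      ext p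
      unfold P
      simp only [mem_filter, mem_Icc]
      constructor
      · rintro ⟨⟨g1, g2⟩, g3⟩
        exact ⟨⟨⟨g1, g2.trans huv⟩, g3⟩, by omega⟩
      · rintro ⟨⟨⟨g1, g2⟩, g3⟩, g4⟩
        exact ⟨⟨g1, by omega⟩, g3⟩
    rw [e, add_comm, sum_filter_add_sum_filter_not]
  have h3 := hC u hu
  have h4 := hC v (hu.trans huv)
  have lu : 0 < Real.log u := by linarith [one_le_log hu]
  have lv : 0 < Real.log v := by linarith [one_le_log (hu.trans huv)]
  rw [abs_le] at h3 h4
  refine h1.trans ?_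
  have h5 : Real.exp (2 * C) * (Real.log u / Real.log v) =
      Real.exp (2 * C + Real.log (Real.log u) - Real.log (Real.log v)) := by
    rw [Real.exp_sub, Real.exp_add, Real.exp_log lu, Real.exp_log lv]
    ring
  rw [h5]
  apply Real.exp_le_exp.2
  linarith [h3.1, h3.2, h4.1, h4.2]

lemma rF_le {p : ℕ} (hp : p.Prime) : rF p ≤ rt 1 p + rt 3 p := by
  unfold rF rt
  refine le_trans ?_ (card_union_le _ _)
  refine card_le_card fun r hr => ?_
  rw [mem_filter] at hr
  rw [mem_union, mem_filter, mem_filter]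
  unfold F at hr
  rcases (hp.dvd_mul).1 hr.2 with h | h
  · exact Or.inl ⟨hr.1, h⟩
  · exact Or.inr ⟨hr.1, h⟩

lemma log_bd {x : ℝ} (hx : 0 ≤ x) (hx2 : x ≤ 4 / 5) : Real.exp (-(x + 5 * x ^ 2)) ≤ 1 - x := by
  have h1 : (0 : ℝ) < 1 - x := by linarith
  have h2 := Real.one_sub_inv_le_log_of_pos h1
  have h3 : -(x + 5 * x ^ 2) ≤ 1 - (1 - x)⁻¹ := by
    have e : 1 - (1 - x)⁻¹ = -(x / (1 - x)) := by
      field_simp
      ring
    rw [e, neg_le_neg_iff, div_le_iff₀ h1]
    nlinarith [sq_nonneg x]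
  calc Real.exp (-(x + 5 * x ^ 2)) ≤ Real.exp (Real.log (1 - x)) :=
        Real.exp_le_exp.2 (h3.trans h2)
    _ = 1 - x := Real.exp_log h1

lemma rF_bd {p : ℕ} (hp : p.Prime) : (rF p : ℝ) / p ≤ 4 / 5 ∧ (rF p : ℝ) ≤ 4 := by
  have h0 : (0 : ℝ) < p := by exact_mod_cast hp.pos
  by_cases h5 : 5 ≤ p
  · have h1 := rF_le hp
    have h2 := rt_val (Or.inl rfl : (1 : ℕ) = 1 ∨ (1 : ℕ) = 3) hp h5
    have h3 := rt_val (Or.inr rfl : (3 : ℕ) = 1 ∨ (3 : ℕ) = 3) hp h5
    have h4 : (rt 1 p : ℝ) ≤ 2 := by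
      rw [h2]
      split_ifs <;> norm_num
    have h6 : (rt 3 p : ℝ) ≤ 2 := by
      rw [h3]
      split_ifs <;> norm_num
    have h7 : (rF p : ℝ) ≤ rt 1 p + rt 3 p := by exact_mod_cast h1
    have h8 : (5 : ℝ) ≤ p := by exact_mod_cast h5
    refine ⟨?_, by linarith⟩
    rw [div_le_iff₀ h0]
    linarith
  · have h23 : p = 2 ∨ p = 3 := by
      have := hp.two_le
      have h4 : p ≠ 4 := by
        rintro rfl
        exact absurd hp (by decide)
      omega
    rcases h23 with rfl | rfl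
    · have : rF 2 = 1 := by decide
      rw [this]
      norm_num
    · have : rF 3 = 1 := by decide
      rw [this]
      norm_num

lemma sum_sq : ∃ C : ℝ, 0 ≤ C ∧ ∀ z : ℕ, ∑ p ∈ P z, ((rF p : ℝ) / p) ^ 2 ≤ C := by
  have hs : Summable (fun n : ℕ => 16 * (1 / (n : ℝ) ^ 2)) :=
    (Real.summable_one_div_nat_pow.2 (by norm_num)).mul_left 16
  refine ⟨∑' n : ℕ, 16 * (1 / (n : ℝ) ^ 2), tsum_nonneg fun n => by positivity, fun z => ?_⟩
  refine le_trans ?_ (hs.sum_le_tsum (P z) fun n _ => by positivity)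
  refine sum_le_sum fun p hp => ?_
  have h1 := (rF_bd (P_prime hp)).2
  have h2 : (0 : ℝ) ≤ rF p := Nat.cast_nonneg _
  rw [div_pow, ← mul_one_div]
  refine mul_le_mul_of_nonneg_right ?_ (by positivity)
  nlinarith

lemma VF_low {C : ℝ} (hC : ∀ a : ℕ, (a = 1 ∨ a = 3) → ∀ y : ℕ, 3 ≤ y →
    |∑ p ∈ P y, (rt a p : ℝ) / p - Real.log (Real.log y)| ≤ C) {K : ℝ}
    (hK : ∀ z : ℕ, ∑ p ∈ P z, ((rF p : ℝ) / p) ^ 2 ≤ K) {z : ℕ} (hz : 3 ≤ z) :
    Real.exp (-(2 * C + 5 * K)) / Real.log z ^ 2 ≤ VF z := by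
  have h1 : ∏ p ∈ P z, Real.exp (-((rF p : ℝ) / p + 5 * ((rF p : ℝ) / p) ^ 2)) ≤ VF z := by
    unfold VF
    refine prod_le_prod (fun p _ => (Real.exp_pos _).le) fun p hp => ?_
    exact log_bd (by positivity) (rF_bd (P_prime hp)).1
  rw [← Real.exp_sum] at h1
  refine le_trans ?_ h1
  have lz : 0 < Real.log z := by linarith [one_le_log hz]
  have h2 : Real.exp (-(2 * C + 5 * K)) / Real.log z ^ 2 =
      Real.exp (-(2 * C + 5 * K) - 2 * Real.log (Real.log z)) := by
    rw [Real.exp_sub]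
    congr 1
    rw [mul_comm, Real.exp_mul, Real.exp_log lz]
    norm_num
  rw [h2]
  apply Real.exp_le_exp.2
  rw [sum_neg_distrib, sum_add_distrib, ← mul_sum]
  have h3 : ∑ p ∈ P z, (rF p : ℝ) / p ≤ ∑ p ∈ P z, (rt 1 p : ℝ) / p + ∑ p ∈ P z, (rt 3 p : ℝ) / p := by
    rw [← sum_add_distrib]
    refine sum_le_sum fun p hp => ?_
    rw [← add_div]
    have : (rF p : ℝ) ≤ rt 1 p + rt 3 p := by exact_mod_cast rF_le (P_prime hp)
    gcongr
  have h4 := (abs_le.1 (hC 1 (Or.inl rfl) z hz)).2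
  have h5 := (abs_le.1 (hC 3 (Or.inr rfl) z hz)).2
  have h6 := hK z
  linarith

/-- **MERP** -/
theorem t_MERP : S_MERP := by
  obtain ⟨C, hC0, hC⟩ := mer2
  obtain ⟨K, hK0, hK⟩ := sum_sq
  have l2 : 0 < Real.log 2 := Real.log_pos (by norm_num)
  have l3 := log3
  have hr : 1 ≤ Real.log 3 / Real.log 2 := by
    rw [le_div_iff₀ l2, one_mul]
    exact Real.log_le_log (by norm_num) (by norm_num)
  obtain ⟨A, hA⟩ : ∃ A : ℝ, A = Real.exp (2 * C) * (Real.log 3 / Real.log 2) +
    Real.exp (2 * C + 5 * K) + 2 / Real.log 2 ^ 2 := ⟨_, rfl⟩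
  have e1 : 1 ≤ Real.exp (2 * C) := Real.one_le_exp (by positivity)
  have e2 : 0 < Real.exp (2 * C + 5 * K) := Real.exp_pos _
  have e3 : 0 < 2 / Real.log 2 ^ 2 := by positivity
  have e4 : Real.exp (2 * C) ≤ Real.exp (2 * C) * (Real.log 3 / Real.log 2) :=
    le_mul_of_one_le_right (by linarith) hr
  refine ⟨A, by rw [hA]; linarith, ?_, ?_⟩
  · intro a ha u v hu huv
    have lu : 0 < Real.log u := Real.log_pos (by exact_mod_cast (by omega : 1 < u))
    have lv : 0 < Real.log v := Real.log_pos (by exact_mod_cast (by omega : 1 < v))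
    rcases Nat.lt_or_ge u 3 with h3 | h3
    · have hu2 : u = 2 := by omega
      subst hu2
      rcases Nat.lt_or_ge v 3 with h4 | h4
      · have hv2 : v = 2 := by omega
        subst hv2
        have : (P 2).filter (fun p => 2 < p) = ∅ := by
          unfold P
          decide
        rw [this, prod_empty, div_self lu.ne', mul_one, hA]
        linarith
      · have h5 := prod_up (hC a ha) le_rfl h4
        have h6 : ∏ p ∈ (P v).filter (fun p => 2 < p), (1 - (rt a p : ℝ) / p) ≤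
            ∏ p ∈ (P v).filter (fun p => 3 < p), (1 - (rt a p : ℝ) / p) := by
          refine prod_le_prod_of_subset_of_le_one ?_ ?_ ?_
          · intro p hp
            rw [mem_filter] at hp ⊢
            exact ⟨hp.1, by omega⟩
          · intro p hp
            exact (fac_bd (P_prime (mem_filter.1 hp).1)).1
          · intro p hp _
            exact (fac_bd (P_prime (mem_filter.1 hp).1)).2
        refine h6.trans (h5.trans ?_)
        have e5 : Real.exp (2 * C) * (Real.log ((3 : ℕ) : ℝ) / Real.log v) =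
            (Real.exp (2 * C) * (Real.log 3 / Real.log 2)) *
              (Real.log ((2 : ℕ) : ℝ) / Real.log v) := by
          push_cast
          field_simp
        rw [e5]
        refine mul_le_mul_of_nonneg_right ?_ (by positivity)
        rw [hA]
        linarith
    · refine (prod_up (hC a ha) h3 huv).trans ?_
      refine mul_le_mul_of_nonneg_right ?_ (by positivity)
      rw [hA]
      linarith
  · intro z hz
    rcases Nat.lt_or_ge z 3 with h3 | h3
    · have hz2 : z = 2 := by omega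
      subst hz2
      have : VF 2 = 1 / 2 := by
        have e5 : P 2 = {2} := by
          unfold P
          decide
        have e6 : rF 2 = 1 := by decide
        unfold VF
        rw [e5, prod_singleton, e6]
        norm_num
      rw [this, one_div_le_one_div (by rw [hA]; positivity) (by norm_num)]
      push_cast
      have : 2 / Real.log 2 ^ 2 * Real.log 2 ^ 2 ≤ A * Real.log 2 ^ 2 := by
        refine mul_le_mul_of_nonneg_right ?_ (by positivity)
        rw [hA]
        have := mul_nonneg (by positivity : (0 : ℝ) ≤ Real.exp (2 * C))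
          (by positivity : (0 : ℝ) ≤ Real.log 3 / Real.log 2)
        linarith
      rwa [div_mul_cancel₀ _ (by positivity)] at this
    · refine le_trans ?_ (VF_low hC hK h3)
      have lz : 0 < Real.log z := by linarith [one_le_log h3]
      rw [Real.exp_neg, inv_eq_one_div, div_div]
      refine one_div_le_one_div_of_le (by positivity) ?_
      refine mul_le_mul_of_nonneg_right ?_ (by positivity)
      rw [hA]
      have := mul_nonneg (by positivity : (0 : ℝ) ≤ Real.exp (2 * C))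
        (by positivity : (0 : ℝ) ≤ Real.log 3 / Real.log 2)
      linarith

end Pool.Agent.D0H13.LP
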